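import Pool.Agent.Y44.GK.Sum

/-! # Project GK (helper821): job GK-BLK -/

set_option autoImplicit false

open MeasureTheory ProbabilityTheory Matrix Pool.H102.SC
open scoped Matrix.Norms.L2Operator

namespace Pool.Agent.Y44.GK

open Pool.Agent.Y821.GK

variable {N : ℕ}

theorem bil_symm (R : Matrix (Fin N × Fin N) (Fin N × Fin N) ℝ) (hR : Rᵀ = R)
    (X Y : Matrix (Fin N) (Fin N) ℝ) : bil R X Y = bil R Y X := by
  rw [bil_apply, bil_apply]
  simp only [Finset.sum_mul]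
  rw [Finset.sum_comm]
  apply Finset.sum_congr rfl
  intro q _
  apply Finset.sum_congr rfl
  intro p _
  have : R p q = R q p := by
    conv_lhs => rw [← hR]
    rfl
  rw [this]; ring

theorem piece_biUnion (u v : Fin N → EuclideanSpace ℝ (Fin N)) (c : Fin N → ℝ) (s : Finset ℕ) :
    piece u v c (s.biUnion (lev N)) = ∑ a ∈ s, piece u v c (lev N a) := by
  ext x y
  rw [Matrix.sum_apply]
  simp only [piece, Matrix.of_apply]
  rw [Finset.sum_biUnion]
  intro a _ b _ hab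
  rw [Function.onFun, Finset.disjoint_left]
  intro i hi hi'
  rw [lev, Finset.mem_filter] at hi hi'
  exact hab (hi.2.symm.trans hi'.2)

theorem univ_eq_biUnion (N : ℕ) :
    (Finset.univ : Finset (Fin N)) = (Finset.range (Nat.log 2 N + 1)).biUnion (lev N) := by
  ext i
  simp only [Finset.mem_univ, Finset.mem_biUnion, Finset.mem_range, true_iff]
  refine ⟨Nat.log 2 (i.1 + 1), ?_, ?_⟩
  · have : Nat.log 2 (i.1 + 1) ≤ Nat.log 2 N := Nat.log_mono_right (by omega)
    omega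
  · rw [lev, Finset.mem_filter]
    exact ⟨Finset.mem_univ _, rfl⟩

theorem piece_smul (u v : Fin N → EuclideanSpace ℝ (Fin N)) (c : Fin N → ℝ) (J : Finset (Fin N)) (s : ℝ) :
    piece u v (fun i => s * c i) J = s • piece u v c J := by
  ext x y
  rw [Matrix.smul_apply]
  simp only [piece, Matrix.of_apply, smul_eq_mul]
  rw [Finset.mul_sum]
  apply Finset.sum_congr rfl
  intro i _
  ring

theorem piece_zero (u v : Fin N → EuclideanSpace ℝ (Fin N)) (c : Fin N → ℝ) (J : Finset (Fin N))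
    (h : ∑ i ∈ J, c i ^ 2 = 0) : piece u v c J = 0 := by
  ext x y
  simp only [piece, Matrix.of_apply, Matrix.zero_apply]
  apply Finset.sum_eq_zero
  intro i hi
  rw [Finset.sum_eq_zero_iff_of_nonneg (fun i _ => sq_nonneg _)] at h
  have := h i hi
  have h2 : c i = 0 := by simpa using this
  rw [h2]; ring

/-- scaling of the hypothesis -/
theorem scaled {J J' : Finset (Fin N)} (R : Matrix (Fin N × Fin N) (Fin N × Fin N) ℝ)
    (u v u' v' : Fin N → EuclideanSpace ℝ (Fin N)) (B : ℝ)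
    (h : ∀ c d : Fin N → ℝ, ∑ i ∈ J, c i ^ 2 ≤ 1 → ∑ i ∈ J', d i ^ 2 ≤ 1 →
      |bil R (piece u v c J) (piece u' v' d J')| ≤ B) (hB : 0 ≤ B) (c d : Fin N → ℝ) :
    |bil R (piece u v c J) (piece u' v' d J')| ≤
      B * (Real.sqrt (∑ i ∈ J, c i ^ 2) * Real.sqrt (∑ i ∈ J', d i ^ 2)) := by
  set s : ℝ := Real.sqrt (∑ i ∈ J, c i ^ 2) with hs
  set s' : ℝ := Real.sqrt (∑ i ∈ J', d i ^ 2) with hs'
  have h0 : 0 ≤ ∑ i ∈ J, c i ^ 2 := Finset.sum_nonneg fun _ _ => sq_nonneg _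
  have h0' : 0 ≤ ∑ i ∈ J', d i ^ 2 := Finset.sum_nonneg fun _ _ => sq_nonneg _
  have hs0 : 0 ≤ s := Real.sqrt_nonneg _
  have hs0' : 0 ≤ s' := Real.sqrt_nonneg _
  rcases eq_or_lt_of_le hs0 with h1 | h1
  · have h2 : ∑ i ∈ J, c i ^ 2 = 0 := (Real.sqrt_eq_zero h0).mp h1.symm
    rw [piece_zero u v c J h2, map_zero, LinearMap.zero_apply, abs_zero]
    positivity
  rcases eq_or_lt_of_le hs0' with h1' | h1'
  · have h2 : ∑ i ∈ J', d i ^ 2 = 0 := (Real.sqrt_eq_zero h0').mp h1'.symm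
    rw [piece_zero u' v' d J' h2, map_zero, abs_zero]
    positivity
  have h3 : ∑ i ∈ J, (s⁻¹ * c i) ^ 2 ≤ 1 := by
    have : ∑ i ∈ J, (s⁻¹ * c i) ^ 2 = s⁻¹ ^ 2 * ∑ i ∈ J, c i ^ 2 := by
      rw [Finset.mul_sum]
      exact Finset.sum_congr rfl fun i _ => by ring
    rw [this]
    have h4 : ∑ i ∈ J, c i ^ 2 = s ^ 2 := (Real.sq_sqrt h0).symm
    rw [h4, ← mul_pow, inv_mul_cancel₀ h1.ne', one_pow]
  have h3' : ∑ i ∈ J', (s'⁻¹ * d i) ^ 2 ≤ 1 := by
    have : ∑ i ∈ J', (s'⁻¹ * d i) ^ 2 = s'⁻¹ ^ 2 * ∑ i ∈ J', d i ^ 2 := by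
      rw [Finset.mul_sum]
      exact Finset.sum_congr rfl fun i _ => by ring
    rw [this]
    have h4 : ∑ i ∈ J', d i ^ 2 = s' ^ 2 := (Real.sq_sqrt h0').symm
    rw [h4, ← mul_pow, inv_mul_cancel₀ h1'.ne', one_pow]
  have h5 := h _ _ h3 h3'
  rw [piece_smul, piece_smul, LinearMap.map_smul (bil R), LinearMap.smul_apply, map_smul, smul_eq_mul,
    smul_eq_mul, abs_mul, abs_mul, abs_of_pos (inv_pos.mpr h1), abs_of_pos (inv_pos.mpr h1')] at h5
  have h6 : |bil R (piece u v c J) (piece u' v' d J')| =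
      s * (s' * (s⁻¹ * (s'⁻¹ * |bil R (piece u v c J) (piece u' v' d J')|))) := by
    field_simp
  rw [h6]
  calc s * (s' * (s⁻¹ * (s'⁻¹ * |bil R (piece u v c J) (piece u' v' d J')|)))
      ≤ s * (s' * B) := by gcongr
    _ = B * (s * s') := by ring

/-- the hypothesis of (BLK) -/
def Hyp (N k : ℕ) (R : Matrix (Fin N × Fin N) (Fin N × Fin N) ℝ) (M : ℝ) : Prop :=
  ∀ a b : ℕ, b ≤ a → a ≤ Nat.log 2 N → ∀ u v u' v' : Fin N → EuclideanSpace ℝ (Fin N), Orth u v → Orth u' v' →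
    ∀ (c d : Fin N → ℝ) (J J' : Finset (Fin N)), J.card ≤ 2 ^ (a + 1) → J'.card ≤ 2 ^ (b + 1) →
    ∑ i ∈ J, c i ^ 2 ≤ 1 → ∑ i ∈ J', d i ^ 2 ≤ 1 →
    |bil R (piece u v c J) (piece u' v' d J')| ≤
      M * (Real.sqrt (N * 2 ^ a) * (Real.sqrt k + Real.sqrt (N * 2 ^ b)))

theorem star_bound {k : ℕ} {R : Matrix (Fin N × Fin N) (Fin N × Fin N) ℝ} {M : ℝ} (hM : 0 ≤ M)
    (H : Hyp N k R M) {a b : ℕ} (hba : b ≤ a) (ha : a ≤ Nat.log 2 N)
    {u v u' v' : Fin N → EuclideanSpace ℝ (Fin N)} (ho : Orth u v) (ho' : Orth u' v')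
    (c d : Fin N → ℝ) {J J' : Finset (Fin N)} (hJ : J.card ≤ 2 ^ (a + 1)) (hJ' : J'.card ≤ 2 ^ (b + 1)) :
    |bil R (piece u v c J) (piece u' v' d J')| ≤
      M * (Real.sqrt (N * 2 ^ a) * (Real.sqrt k + Real.sqrt (N * 2 ^ b))) *
        (Real.sqrt (∑ i ∈ J, c i ^ 2) * Real.sqrt (∑ i ∈ J', d i ^ 2)) :=
  scaled R u v u' v' _ (fun c d hc hd => H a b hba ha u v u' v' ho ho' c d J J' hJ hJ' hc hd)
    (by positivity) c d

/-- the lumped low levels -/
theorem lump {k : ℕ} {R : Matrix (Fin N × Fin N) (Fin N × Fin N) ℝ} {M : ℝ} (hM : 0 ≤ M)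
    (H : Hyp N k R M) {a : ℕ} (ha : a ≤ Nat.log 2 N)
    {u v u' v' : Fin N → EuclideanSpace ℝ (Fin N)} (ho : Orth u v) (ho' : Orth u' v')
    (c d : Fin N → ℝ) (hd : ∑ i, d i ^ 2 ≤ 1) (s : Finset ℕ) (hs : ∀ b ∈ s, b ≤ a ∧ N * 2 ^ b ≤ k) :
    |bil R (piece u v c (lev N a)) (piece u' v' d (s.biUnion (lev N)))| ≤
      2 * M * Real.sqrt (k * N) * (Real.sqrt (2 ^ a) * Real.sqrt (∑ i ∈ lev N a, c i ^ 2)) := by
  rcases s.eq_empty_or_nonempty with h0 | h0
  · subst h0
    have h1 : piece u' v' d ((∅ : Finset ℕ).biUnion (lev N)) = 0 := by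
      rw [piece_biUnion]; simp
    rw [h1, map_zero, abs_zero]
    positivity
  · obtain ⟨m, hm, hmax⟩ := s.exists_max_image id h0
    simp only [id] at hmax
    obtain ⟨hma, hmk⟩ := hs m hm
    have hcard : (s.biUnion (lev N)).card ≤ 2 ^ (m + 1) := by
      have h1 : (s.biUnion (lev N)).card ≤ (Finset.range (2 ^ (m + 1))).card := by
        apply Finset.card_le_card_of_injOn (fun i => i.1)
        · intro i hi
          rw [Finset.mem_coe, Finset.mem_biUnion] at hi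
          obtain ⟨b, hb, hi⟩ := hi
          have h2 := mem_lev hi
          have h3 := hmax b hb
          have h4 : 2 ^ (b + 1) ≤ 2 ^ (m + 1) := Nat.pow_le_pow_right (by norm_num) (by omega)
          simp only [Finset.coe_range, Set.mem_Iio]
          omega
        · intro i _ j _ hij
          exact Fin.ext hij
      rwa [Finset.card_range] at h1
    have hcard2 : (lev N a).card ≤ 2 ^ (a + 1) :=
      le_trans (card_lev N a) (Nat.pow_le_pow_right (by norm_num) (by omega))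
    have h5 := star_bound hM H hma ha ho ho' c d hcard2 hcard
    have h6 : Real.sqrt (∑ i ∈ s.biUnion (lev N), d i ^ 2) ≤ 1 := by
      rw [Real.sqrt_le_one]
      exact le_trans (Finset.sum_le_univ_sum_of_nonneg fun _ => sq_nonneg _) hd
    have h7 : Real.sqrt (N * 2 ^ m) ≤ Real.sqrt k := by
      apply Real.sqrt_le_sqrt
      exact_mod_cast hmk
    have h8 : Real.sqrt (N * 2 ^ a) = Real.sqrt N * Real.sqrt (2 ^ a) := Real.sqrt_mul (by positivity) _
    have h9 : Real.sqrt (k * N) = Real.sqrt k * Real.sqrt N := Real.sqrt_mul (by positivity) _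
    refine le_trans h5 ?_
    rw [h8, h9]
    calc M * (Real.sqrt N * Real.sqrt (2 ^ a) * (Real.sqrt k + Real.sqrt (N * 2 ^ m))) *
        (Real.sqrt (∑ i ∈ lev N a, c i ^ 2) * Real.sqrt (∑ i ∈ s.biUnion (lev N), d i ^ 2))
        ≤ M * (Real.sqrt N * Real.sqrt (2 ^ a) * (Real.sqrt k + Real.sqrt k)) *
        (Real.sqrt (∑ i ∈ lev N a, c i ^ 2) * 1) := by gcongr
      _ = _ := by ring

theorem high {k : ℕ} {R : Matrix (Fin N × Fin N) (Fin N × Fin N) ℝ} {M : ℝ} (hM : 0 ≤ M)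
    (H : Hyp N k R M) {a b : ℕ} (hba : b ≤ a) (ha : a ≤ Nat.log 2 N) (hb : ¬ (N * 2 ^ b ≤ k))
    {u v u' v' : Fin N → EuclideanSpace ℝ (Fin N)} (ho : Orth u v) (ho' : Orth u' v')
    (c d : Fin N → ℝ) :
    |bil R (piece u v c (lev N a)) (piece u' v' d (lev N b))| ≤
      2 * M * N * ((Real.sqrt (2 ^ a) * Real.sqrt (∑ i ∈ lev N a, c i ^ 2)) *
        (Real.sqrt (2 ^ b) * Real.sqrt (∑ i ∈ lev N b, d i ^ 2))) := by
  have hcard1 : (lev N a).card ≤ 2 ^ (a + 1) :=
    le_trans (card_lev N a) (Nat.pow_le_pow_right (by norm_num) (by omega))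
  have hcard2 : (lev N b).card ≤ 2 ^ (b + 1) :=
    le_trans (card_lev N b) (Nat.pow_le_pow_right (by norm_num) (by omega))
  have h5 := star_bound hM H hba ha ho ho' c d hcard1 hcard2
  have h7 : Real.sqrt k ≤ Real.sqrt (N * 2 ^ b) := by
    apply Real.sqrt_le_sqrt
    have : k ≤ N * 2 ^ b := by omega
    exact_mod_cast this
  have h8 : Real.sqrt (N * 2 ^ a) = Real.sqrt N * Real.sqrt (2 ^ a) := Real.sqrt_mul (by positivity) _
  have h9 : Real.sqrt (N * 2 ^ b) = Real.sqrt N * Real.sqrt (2 ^ b) := Real.sqrt_mul (by positivity) _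
  have h10 : Real.sqrt N * Real.sqrt N = (N : ℝ) := Real.mul_self_sqrt (by positivity)
  refine le_trans h5 ?_
  calc M * (Real.sqrt (N * 2 ^ a) * (Real.sqrt k + Real.sqrt (N * 2 ^ b))) *
      (Real.sqrt (∑ i ∈ lev N a, c i ^ 2) * Real.sqrt (∑ i ∈ lev N b, d i ^ 2))
      ≤ M * (Real.sqrt (N * 2 ^ a) * (Real.sqrt (N * 2 ^ b) + Real.sqrt (N * 2 ^ b))) *
      (Real.sqrt (∑ i ∈ lev N a, c i ^ 2) * Real.sqrt (∑ i ∈ lev N b, d i ^ 2)) := by gcongr
    _ = 2 * M * (Real.sqrt N * Real.sqrt N) * ((Real.sqrt (2 ^ a) * Real.sqrt (∑ i ∈ lev N a, c i ^ 2)) *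
        (Real.sqrt (2 ^ b) * Real.sqrt (∑ i ∈ lev N b, d i ^ 2))) := by rw [h8, h9]; ring
    _ = _ := by rw [h10]

theorem t_BLK : S_BLK := by
  intro N k _ R hR M hM H u v u' v' ho ho' c d hc hd SA SY hSA hSY
  have H' : Hyp N k R M := H
  set L := Nat.log 2 N with hL
  set x : ℕ → ℝ := fun a => Real.sqrt (2 ^ a) * Real.sqrt (∑ i ∈ lev N a, c i ^ 2) with hx
  set y : ℕ → ℝ := fun a => Real.sqrt (2 ^ a) * Real.sqrt (∑ i ∈ lev N a, d i ^ 2) with hy
  have hx0 : ∀ a, 0 ≤ x a := fun a => by positivity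
  have hy0 : ∀ a, 0 ≤ y a := fun a => by positivity
  have hSA' : ∑ a ∈ Finset.range (L + 1), x a ≤ SA := hSA
  have hSY' : ∑ a ∈ Finset.range (L + 1), y a ≤ SY := hSY
  have hSA0 : 0 ≤ SA := le_trans (Finset.sum_nonneg fun a _ => hx0 a) hSA'
  have hSY0 : 0 ≤ SY := le_trans (Finset.sum_nonneg fun a _ => hy0 a) hSY'
  set f : ℕ → ℕ → ℝ := fun a b => bil R (piece u v c (lev N a)) (piece u' v' d (lev N b)) with hf
  set I := Finset.range (L + 1) with hI
  have hsum : bil R (piece u v c Finset.univ) (piece u' v' d Finset.univ) = ∑ a ∈ I, ∑ b ∈ I, f a b := by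
    rw [univ_eq_biUnion N, piece_biUnion, piece_biUnion, map_sum (bil R), LinearMap.sum_apply]
    apply Finset.sum_congr rfl
    intro a _
    rw [map_sum]
  have hsplit : ∀ a b, f a b = (if b ≤ a ∧ N * 2 ^ b ≤ k then f a b else 0) +
      (if a < b ∧ N * 2 ^ a ≤ k then f a b else 0) +
      (if (b ≤ a ∧ ¬ (N * 2 ^ b ≤ k)) ∨ (a < b ∧ ¬ (N * 2 ^ a ≤ k)) then f a b else 0) := by
    intro a b
    by_cases h1 : b ≤ a
    · have h2 : ¬ (a < b) := by omega
      by_cases h3 : N * 2 ^ b ≤ k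
      · simp [h1, h2, h3]
      · simp [h1, h2, h3]
    · have h2 : a < b := by omega
      by_cases h3 : N * 2 ^ a ≤ k
      · simp [h1, h2, h3]
      · simp [h1, h2, h3]
  have hT1 : |∑ a ∈ I, ∑ b ∈ I, (if b ≤ a ∧ N * 2 ^ b ≤ k then f a b else 0)| ≤
      2 * M * Real.sqrt (k * N) * SA := by
    refine le_trans (Finset.abs_sum_le_sum_abs _ _) ?_
    calc ∑ a ∈ I, |∑ b ∈ I, (if b ≤ a ∧ N * 2 ^ b ≤ k then f a b else 0)|
        ≤ ∑ a ∈ I, 2 * M * Real.sqrt (k * N) * x a := by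
          apply Finset.sum_le_sum
          intro a ha
          rw [← Finset.sum_filter]
          have h1 : ∑ b ∈ I.filter (fun b => b ≤ a ∧ N * 2 ^ b ≤ k), f a b =
              bil R (piece u v c (lev N a))
                (piece u' v' d ((I.filter (fun b => b ≤ a ∧ N * 2 ^ b ≤ k)).biUnion (lev N))) := by
            rw [piece_biUnion, map_sum]
          rw [h1]
          have ha' : a ≤ Nat.log 2 N := by
            rw [hI, Finset.mem_range] at ha; omega
          exact lump hM H' ha' ho ho' c d hd _ (fun b hb => (Finset.mem_filter.mp hb).2)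
      _ = 2 * M * Real.sqrt (k * N) * ∑ a ∈ I, x a := by rw [Finset.mul_sum]
      _ ≤ _ := by gcongr
  have hT2 : |∑ a ∈ I, ∑ b ∈ I, (if a < b ∧ N * 2 ^ a ≤ k then f a b else 0)| ≤
      2 * M * Real.sqrt (k * N) * SY := by
    rw [Finset.sum_comm]
    refine le_trans (Finset.abs_sum_le_sum_abs _ _) ?_
    calc ∑ b ∈ I, |∑ a ∈ I, (if a < b ∧ N * 2 ^ a ≤ k then f a b else 0)|
        ≤ ∑ b ∈ I, 2 * M * Real.sqrt (k * N) * y b := by
          apply Finset.sum_le_sum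
          intro b hb
          rw [← Finset.sum_filter]
          have h1 : ∑ a ∈ I.filter (fun a => a < b ∧ N * 2 ^ a ≤ k), f a b =
              bil R (piece u' v' d (lev N b))
                (piece u v c ((I.filter (fun a => a < b ∧ N * 2 ^ a ≤ k)).biUnion (lev N))) := by
            rw [piece_biUnion, map_sum]
            apply Finset.sum_congr rfl
            intro a _
            exact bil_symm R hR _ _
          rw [h1]
          have hb' : b ≤ Nat.log 2 N := by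
            rw [hI, Finset.mem_range] at hb; omega
          exact lump hM H' hb' ho' ho d c hc _
            (fun a ha => ⟨(Finset.mem_filter.mp ha).2.1.le, (Finset.mem_filter.mp ha).2.2⟩)
      _ = 2 * M * Real.sqrt (k * N) * ∑ a ∈ I, y a := by rw [Finset.mul_sum]
      _ ≤ _ := by gcongr
  have hT3 : |∑ a ∈ I, ∑ b ∈ I, (if (b ≤ a ∧ ¬ (N * 2 ^ b ≤ k)) ∨ (a < b ∧ ¬ (N * 2 ^ a ≤ k))
      then f a b else 0)| ≤ 2 * M * N * (SA * SY) := by
    refine le_trans (Finset.abs_sum_le_sum_abs _ _) ?_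
    calc ∑ a ∈ I, |∑ b ∈ I, (if (b ≤ a ∧ ¬ (N * 2 ^ b ≤ k)) ∨ (a < b ∧ ¬ (N * 2 ^ a ≤ k))
          then f a b else 0)|
        ≤ ∑ a ∈ I, ∑ b ∈ I, 2 * M * N * (x a * y b) := by
          apply Finset.sum_le_sum
          intro a ha
          refine le_trans (Finset.abs_sum_le_sum_abs _ _) ?_
          apply Finset.sum_le_sum
          intro b hb
          have ha' : a ≤ Nat.log 2 N := by
            rw [hI, Finset.mem_range] at ha; omega
          have hb' : b ≤ Nat.log 2 N := by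
            rw [hI, Finset.mem_range] at hb; omega
          split
          · rename_i h
            rcases h with ⟨h1, h2⟩ | ⟨h1, h2⟩
            · exact high hM H' h1 ha' h2 ho ho' c d
            · have h3 := high hM H' h1.le hb' h2 ho' ho d c
              have h4 : f a b = bil R (piece u' v' d (lev N b)) (piece u v c (lev N a)) :=
                bil_symm R hR _ _
              rw [h4]
              refine le_trans h3 (le_of_eq ?_)
              simp only [hx, hy]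
              ring
          · rw [abs_zero]
            have := hx0 a
            have := hy0 b
            positivity
      _ = 2 * M * N * ((∑ a ∈ I, x a) * ∑ b ∈ I, y b) := by
          rw [Finset.sum_mul_sum, Finset.mul_sum]
          apply Finset.sum_congr rfl
          intro a _
          rw [Finset.mul_sum]
      _ ≤ _ := by
          have := Finset.sum_nonneg (s := I) fun a _ => hy0 a
          gcongr
  rw [hsum]
  have hdec : ∑ a ∈ I, ∑ b ∈ I, f a b =
      ∑ a ∈ I, ∑ b ∈ I, (if b ≤ a ∧ N * 2 ^ b ≤ k then f a b else 0) +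
      ∑ a ∈ I, ∑ b ∈ I, (if a < b ∧ N * 2 ^ a ≤ k then f a b else 0) +
      ∑ a ∈ I, ∑ b ∈ I, (if (b ≤ a ∧ ¬ (N * 2 ^ b ≤ k)) ∨ (a < b ∧ ¬ (N * 2 ^ a ≤ k))
        then f a b else 0) := by
    rw [← Finset.sum_add_distrib, ← Finset.sum_add_distrib]
    apply Finset.sum_congr rfl
    intro a _
    rw [← Finset.sum_add_distrib, ← Finset.sum_add_distrib]
    exact Finset.sum_congr rfl fun b _ => hsplit a b
  rw [hdec]
  refine le_trans (abs_add_three _ _ _) ?_
  calc _ ≤ 2 * M * Real.sqrt (k * N) * SA + 2 * M * Real.sqrt (k * N) * SY + 2 * M * N * (SA * SY) := by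
        gcongr
    _ = _ := by ring

end Pool.Agent.Y44.GK
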