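import Pool.Agent.Y821.GK.Stm

/-! # Project GK (helper821): job GK-SUM -/

set_option autoImplicit false

open MeasureTheory ProbabilityTheory Matrix Pool.H102.SC
open scoped Matrix.Norms.L2Operator

namespace Pool.Agent.Y44.GK

open Pool.Agent.Y821.GK

/-- Cauchy condensation -/
theorem condense (F : ℕ → ℝ) (hF : Antitone F) (h0 : ∀ i, 0 ≤ F i) (m : ℕ) :
    ∑ a ∈ Finset.range (m + 1), (2 : ℝ) ^ a * F (2 ^ a - 1) ≤ 2 * ∑ i ∈ Finset.range (2 ^ m), F i := by
  induction m with
  | zero =>
    simp only [zero_add, Finset.range_one, Finset.sum_singleton, pow_zero, one_mul, le_refl,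
      tsub_eq_zero_of_le]
    linarith [h0 0]
  | succ m ih =>
    rw [Finset.sum_range_succ]
    have h1 : Finset.range (2 ^ (m + 1)) = Finset.range (2 ^ m) ∪ Finset.Ico (2 ^ m) (2 ^ (m + 1)) := by
      rw [Finset.range_eq_Ico, Finset.range_eq_Ico, Finset.Ico_union_Ico_eq_Ico (Nat.zero_le _)]
      exact Nat.pow_le_pow_right (by norm_num) (by omega)
    have h2 : Disjoint (Finset.range (2 ^ m)) (Finset.Ico (2 ^ m) (2 ^ (m + 1))) := by
      rw [Finset.range_eq_Ico]
      exact Finset.Ico_disjoint_Ico_consecutive _ _ _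
    rw [h1, Finset.sum_union h2]
    have h3 : (Finset.Ico (2 ^ m) (2 ^ (m + 1))).card • F (2 ^ (m + 1) - 1) ≤
        ∑ i ∈ Finset.Ico (2 ^ m) (2 ^ (m + 1)), F i := by
      apply Finset.card_nsmul_le_sum
      intro i hi
      rw [Finset.mem_Ico] at hi
      exact hF (by omega)
    have h4 : (Finset.Ico (2 ^ m) (2 ^ (m + 1))).card = 2 ^ m := by
      rw [Nat.card_Ico, pow_succ]
      omega
    rw [h4, nsmul_eq_mul] at h3
    push_cast at h3
    have h5 : (2 : ℝ) ^ (m + 1) * F (2 ^ (m + 1) - 1) = 2 * (2 ^ m * F (2 ^ (m + 1) - 1)) := by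
      rw [pow_succ]; ring
    rw [h5]
    linarith

theorem mem_lev {N a : ℕ} {i : Fin N} (hi : i ∈ lev N a) : 2 ^ a ≤ i.1 + 1 ∧ i.1 + 1 < 2 ^ (a + 1) := by
  rw [lev, Finset.mem_filter] at hi
  obtain ⟨_, h⟩ := hi
  constructor
  · rw [← h]
    exact Nat.pow_log_le_self 2 (by omega)
  · rw [← h]
    exact Nat.lt_pow_succ_log_self (by norm_num) _

theorem card_lev (N a : ℕ) : (lev N a).card ≤ 2 ^ a := by
  have h1 : (lev N a).card ≤ (Finset.Ico (2 ^ a) (2 ^ (a + 1))).card := by
    apply Finset.card_le_card_of_injOn (fun i => i.1 + 1)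
    · intro i hi
      have h := mem_lev (Finset.mem_coe.mp hi)
      simp only [Finset.coe_Ico, Set.mem_Ico]
      exact h
    · intro i _ j _ hij
      apply Fin.ext
      simp only at hij
      omega
  rw [Nat.card_Ico, pow_succ] at h1
  omega

theorem t_SUM : S_SUM := by
  intro N t hN ht0 ht1 c hc0 hcA hsum
  have ht2 : 0 < 1 - t := by linarith
  set p : ℝ := 1 / (1 - t) with hp
  have hp0 : 0 < p := by positivity
  have hp2 : p ≤ 2 := by
    rw [hp, div_le_iff₀ ht2]; linarith
  have hci : ∀ i, c i ^ p ≤ 1 := fun i =>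
    le_trans (Finset.single_le_sum (f := fun i => c i ^ p) (fun j _ => Real.rpow_nonneg (hc0 j) _)
      (Finset.mem_univ i)) hsum
  have hc1 : ∀ i, c i ≤ 1 := by
    intro i
    by_contra h
    push Not at h
    have := Real.one_lt_rpow h hp0
    linarith [hci i]
  constructor
  · set F : ℕ → ℝ := fun i => if h : i < N then c ⟨i, h⟩ else 0 with hFdef
    have hF0 : ∀ i, 0 ≤ F i := by
      intro i
      simp only [hFdef]
      split
      · exact hc0 _
      · exact le_refl _
    have hFA : Antitone F := by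
      intro i j hij
      simp only [hFdef]
      split
      · rename_i h1
        rw [dif_pos (lt_of_le_of_lt hij h1)]
        exact hcA (by simpa using hij)
      · split
        · exact hc0 _
        · exact le_refl _
    have hFc : ∀ i : Fin N, F i.1 = c i := by
      intro i
      simp only [hFdef]
      rw [dif_pos i.2]
    -- the terms
    have h1 : ∀ a ∈ Finset.range (Nat.log 2 N + 1),
        Real.sqrt (2 ^ a) * Real.sqrt (∑ i ∈ lev N a, c i ^ 2) ≤
          ((2 : ℝ) ^ a) ^ t * (((2 : ℝ) ^ a) ^ (1 - t) * F (2 ^ a - 1)) := by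
      intro a _
      have h2 : ∑ i ∈ lev N a, c i ^ 2 ≤ 2 ^ a * F (2 ^ a - 1) ^ 2 := by
        have h3 : ∑ i ∈ lev N a, c i ^ 2 ≤ (lev N a).card • F (2 ^ a - 1) ^ 2 := by
          apply Finset.sum_le_card_nsmul
          intro i hi
          have h4 := mem_lev hi
          have h5 : c i ≤ F (2 ^ a - 1) := by
            rw [← hFc]
            exact hFA (by omega)
          exact pow_le_pow_left₀ (hc0 i) h5 2
        refine le_trans h3 ?_
        rw [nsmul_eq_mul]
        apply mul_le_mul_of_nonneg_right _ (sq_nonneg _)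
        exact_mod_cast card_lev N a
      have h6 : Real.sqrt (2 ^ a) * Real.sqrt (∑ i ∈ lev N a, c i ^ 2) ≤
          Real.sqrt (2 ^ a) * Real.sqrt (2 ^ a * F (2 ^ a - 1) ^ 2) :=
        mul_le_mul_of_nonneg_left (Real.sqrt_le_sqrt h2) (Real.sqrt_nonneg _)
      refine le_trans h6 (le_of_eq ?_)
      rw [Real.sqrt_mul (by positivity), Real.sqrt_sq (hF0 _), ← mul_assoc, ← mul_assoc,
        Real.mul_self_sqrt (by positivity), ← Real.rpow_add (by positivity)]
      rw [show t + (1 - t) = 1 by ring, Real.rpow_one]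
    refine le_trans (Finset.sum_le_sum h1) ?_
    have hconj : (1 / t).HolderConjugate p := by
      rw [Real.holderConjugate_iff]
      constructor
      · rw [lt_div_iff₀ ht0]; linarith
      · rw [hp]; simp
    refine le_trans (Real.inner_le_Lp_mul_Lq_of_nonneg _ hconj (fun a _ => by positivity)
      (fun a _ => mul_nonneg (by positivity) (hF0 _))) ?_
    have h7 : ∀ a ∈ Finset.range (Nat.log 2 N + 1), ((((2 : ℝ) ^ a) ^ t) ^ (1 / t)) = 2 ^ a := by
      intro a _
      rw [← Real.rpow_mul (by positivity), mul_one_div_cancel ht0.ne', Real.rpow_one]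
    have h8 : ∀ a ∈ Finset.range (Nat.log 2 N + 1),
        (((2 : ℝ) ^ a) ^ (1 - t) * F (2 ^ a - 1)) ^ p = 2 ^ a * (F (2 ^ a - 1)) ^ p := by
      intro a _
      rw [Real.mul_rpow (by positivity) (hF0 _), ← Real.rpow_mul (by positivity), hp,
        mul_one_div_cancel ht2.ne', Real.rpow_one]
    rw [Finset.sum_congr rfl h7, Finset.sum_congr rfl h8]
    have h9 : ∑ a ∈ Finset.range (Nat.log 2 N + 1), (2 : ℝ) ^ a ≤ 2 * N := by
      have h10 : ∑ a ∈ Finset.range (Nat.log 2 N + 1), (2 : ℝ) ^ a = 2 ^ (Nat.log 2 N + 1) - 1 := by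
        have := geom_sum_eq (x := (2 : ℝ)) (by norm_num) (Nat.log 2 N + 1)
        rw [this]; norm_num
      have h11 : (2 : ℝ) ^ (Nat.log 2 N) ≤ N := by
        exact_mod_cast Nat.pow_log_le_self 2 (by omega)
      rw [h10, pow_succ]
      linarith
    have h12 : ∑ a ∈ Finset.range (Nat.log 2 N + 1), (2 : ℝ) ^ a * (F (2 ^ a - 1)) ^ p ≤ 2 := by
      have h13 := condense (fun i => F i ^ p)
        (fun i j hij => Real.rpow_le_rpow (hF0 j) (hFA hij) hp0.le)
        (fun i => Real.rpow_nonneg (hF0 i) _) (Nat.log 2 N)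
      refine le_trans h13 ?_
      have h14 : ∑ i ∈ Finset.range (2 ^ Nat.log 2 N), F i ^ p ≤ ∑ i ∈ Finset.range N, F i ^ p := by
        apply Finset.sum_le_sum_of_subset_of_nonneg
        · apply Finset.range_subset_range.mpr
          exact Nat.pow_log_le_self 2 (by omega)
        · intro i _ _
          exact Real.rpow_nonneg (hF0 i) _
      have h15 : ∑ i ∈ Finset.range N, F i ^ p = ∑ i : Fin N, c i ^ p := by
        rw [Finset.sum_range]
        apply Finset.sum_congr rfl
        intro i _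
        rw [hFc]
      linarith
    have h16 : (∑ a ∈ Finset.range (Nat.log 2 N + 1), (2 : ℝ) ^ a) ^ (1 / (1 / t)) ≤ (2 * (N : ℝ)) ^ t := by
      rw [one_div_one_div]
      exact Real.rpow_le_rpow (Finset.sum_nonneg fun _ _ => by positivity) h9 ht0.le
    have h17 : (∑ a ∈ Finset.range (Nat.log 2 N + 1), (2 : ℝ) ^ a * (F (2 ^ a - 1)) ^ p) ^ (1 / p) ≤
        (2 : ℝ) ^ (1 - t) := by
      rw [hp, one_div_one_div]
      exact Real.rpow_le_rpow (Finset.sum_nonneg fun _ _ => mul_nonneg (by positivity)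
        (Real.rpow_nonneg (hF0 _) _)) h12 ht2.le
    calc _ ≤ (2 * (N : ℝ)) ^ t * (2 : ℝ) ^ (1 - t) := by
          apply mul_le_mul h16 h17 (Real.rpow_nonneg (Finset.sum_nonneg fun _ _ => mul_nonneg
            (by positivity) (Real.rpow_nonneg (hF0 _) _)) _) (by positivity)
      _ = 2 * (N : ℝ) ^ t := by
          rw [Real.mul_rpow (by norm_num) (by positivity), mul_right_comm,
            ← Real.rpow_add (by norm_num)]
          rw [show t + (1 - t) = 1 by ring, Real.rpow_one]
  · refine le_trans (Finset.sum_le_sum fun i _ => ?_) hsum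
    rcases eq_or_lt_of_le (hc0 i) with h | h
    · rw [← h, Real.zero_rpow hp0.ne']
      norm_num
    · rw [← Real.rpow_natCast]
      apply Real.rpow_le_rpow_of_exponent_ge h (hc1 i)
      simpa using hp2

end Pool.Agent.Y44.GK
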